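import Pool.Agent.Helper69.BQ.Defs
import Pool.Agent.Helper25.BiqSub
import Pool.Agent.Helper69.BQ.Statement

/-!
# Project BQ, piece F9: the preprojective case of the classification
-/

namespace Pool.Agent.Helper42.BQ

open Module LinearMap Pool.Agent.Helper25 Pool.Agent.Helper25.Kron Pool.Agent.Helper69.BQ

section general

variable {k V : Type*} [Field k] [AddCommGroup V] [Module k V] {A B C : V →ₗ[k] V}

/-- The chain in the preprojective case spans, and its members are linearly independent. -/
lemma preproj_chain [FiniteDimensional k V] (h : Kron.Sys A B C) (m : ℕ)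
    (h1 : range A ⊔ range B ≤ range B ⊔ sq A B ⊤ (m + 1))
    (h2 : ¬ range A ⊔ range B ≤ range B ⊔ sq A B ⊤ (m + 2)) :
    ∃ u w : ℕ → V, (∀ i < m + 1, A (u i) = w i ∧ B (u i) = w (i + 1)) ∧
      finrank k V = 2 * (m + 1) + 1 ∧
      ⊤ ≤ Submodule.span k ((Set.range fun i : Fin (m + 1) => u i) ∪
        Set.range fun i : Fin (m + 1 + 1) => w i) := by
  have h3 : ¬ sq A B ⊤ (m + 1) ≤ range B ⊔ sq A B ⊤ (m + 2) := fun h4 =>
    h2 (h1.trans (sup_le le_sup_left h4))
  obtain ⟨w, hw, hwn⟩ := Set.not_subset.1 h3
  obtain ⟨u, hu0, hu1, -⟩ := exists_chain_vector A B ⊤ m w hw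
  obtain ⟨g, hg1, hg2⟩ := exists_functional_one _ _ hwn
  obtain ⟨G, hG0, hG1, hG2⟩ := exists_chain_functional A B ⊤ (m + 2) g
    (fun x hx => hg1 x (Submodule.mem_sup_right hx))
  have hGA : ∀ v, G (m + 1) (A v) = 0 := by
    intro v
    rw [← hG1 (m + 1) (by omega)]
    exact hG2 _ trivial
  have hGB : ∀ v, G 0 (B v) = 0 := by
    intro v
    rw [hG0]
    exact hg1 _ (Submodule.mem_sup_left ⟨v, rfl⟩)
  let e : V →ₗ[k] V := (∑ i ∈ Finset.range (m + 1),
    ((G i ∘ₗ A).smulRight (u i) + (G i).smulRight (A (u i)))) + (G (m + 1)).smulRight (B (u m))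
  have he : ∀ v, e v = (∑ i ∈ Finset.range (m + 1), (G i (A v) • u i + G i v • A (u i))) +
      G (m + 1) v • B (u m) := by
    intro v
    simp [e, LinearMap.sum_apply]
  have heA : ∀ v, e (A v) = A (e v) := by
    intro v
    rw [he, he, map_add, map_sum, hGA, zero_smul, map_smul, h.AB, smul_zero]
    congr 1
    apply Finset.sum_congr rfl
    intro i _
    simp [h.AA]
  have heB : ∀ v, e (B v) = B (e v) := by
    intro v
    rw [he, he, map_add, map_sum, map_smul, h.BB, smul_zero, add_zero]
    have e1 : ∀ i, G i (A (B v)) • u i + G i (B v) • A (u i) = G i (B v) • A (u i) := by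
      intro i; simp [h.AB]
    have e2 : ∀ i, B (G i (A v) • u i + G i v • A (u i)) = G i (A v) • B (u i) := by
      intro i; simp [h.BA]
    simp only [e1, e2]
    rw [Finset.sum_range_succ', Finset.sum_range_succ, hGB, zero_smul, add_zero,
      hG1 m (by omega)]
    congr 1
    apply Finset.sum_congr rfl
    intro i hi
    rw [Finset.mem_range] at hi
    rw [hG1 i (by omega), hu1 i hi]
  -- the functionals are dual to the vectors
  have hdiag : ∀ i ≤ m, G i (A (u i)) = 1 := by
    intro i
    induction i with
    | zero => intro _; rw [hG0, hu0, hg2]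
    | succ i ih =>
      intro hi
      rw [hu1 i (by omega), hG1 i (by omega)]
      exact ih (by omega)
  have hQ : ∀ t ≤ m, ∀ i, i + t ≤ m → G (m + 1 - t) (A (u i)) = 0 := by
    intro t
    induction t with
    | zero => intro _ i _; exact hGA _
    | succ t ih =>
      intro ht i hi
      rw [show m + 1 - (t + 1) = m - t by omega, ← hG1 (m - t) (by omega), ← hu1 i (by omega)]
      have := ih (by omega) (i + 1) (by omega)
      rwa [show m + 1 - t = m - t + 1 by omega] at this
  have hup : ∀ j i, i < j → j ≤ m + 1 → G j (A (u i)) = 0 := by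
    intro j i hij hj
    have := hQ (m + 1 - j) (by omega) i (by omega)
    rwa [show m + 1 - (m + 1 - j) = j by omega] at this
  have hlow : ∀ j i, j < i → i ≤ m → G j (A (u i)) = 0 := by
    intro j
    induction j with
    | zero =>
      intro i hi hm
      obtain ⟨i, rfl⟩ := Nat.exists_eq_succ_of_ne_zero (show i ≠ 0 by omega)
      rw [Nat.succ_eq_add_one, hu1 i (by omega), hGB]
    | succ j ih =>
      intro i hi hm
      obtain ⟨i, rfl⟩ := Nat.exists_eq_succ_of_ne_zero (show i ≠ 0 by omega)
      rw [Nat.succ_eq_add_one, hu1 i (by omega), hG1 j (by omega)]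
      exact ih i (by omega) (by omega)
  have hGd : ∀ j i, j ≤ m + 1 → i ≤ m → G j (A (u i)) = if j = i then 1 else 0 := by
    intro j i hj hi
    rcases lt_trichotomy j i with hji | hji | hji
    · rw [hlow j i hji hi, if_neg (by omega)]
    · rw [hji, hdiag i hi, if_pos rfl]
    · rw [hup j i hji hj, if_neg (by omega)]
  have hlast : ∀ j ≤ m + 1, G j (B (u m)) = if j = m + 1 then 1 else 0 := by
    intro j hj
    cases j with
    | zero => rw [hGB, if_neg (by omega)]
    | succ j =>
      rw [hG1 j (by omega), hGd j m (by omega) le_rfl]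
      by_cases hjm : j = m
      · rw [if_pos hjm, if_pos (by omega)]
      · rw [if_neg hjm, if_neg (by omega)]
  have hfix : e (A (u 0)) = A (u 0) := by
    rw [he, Finset.sum_range_succ', Finset.sum_eq_zero]
    · rw [hGA, h.AA, map_zero, zero_smul, zero_smul, hG0, hu0, hg2]
      simp
    · intro i hi
      rw [Finset.mem_range] at hi
      rw [h.AA, map_zero, zero_smul, hGd (i + 1) 0 (by omega) (by omega), if_neg (by omega),
        zero_smul, add_zero]
  have hne : A (u 0) ≠ 0 := by
    intro h0
    rw [← hu0, h0, map_zero] at hg2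
    exact zero_ne_one hg2
  have hsurj := h.surj e heA heB ⟨_, hne, hfix⟩
  -- the chain
  let w' : ℕ → V := fun i => Nat.casesOn i (A (u 0)) fun i => B (u i)
  have hw'A : ∀ i ≤ m, w' i = A (u i) := by
    intro i hi
    cases i with
    | zero => rfl
    | succ i => exact (hu1 i (by omega)).symm
  have hw'B : ∀ i, w' (i + 1) = B (u i) := fun i => rfl
  have hGw : ∀ j i, j ≤ m + 1 → i ≤ m + 1 → G j (w' i) = if j = i then 1 else 0 := by
    intro j i hj hi
    rcases Nat.lt_or_ge i (m + 1) with hi' | hi'
    · rw [hw'A i (by omega)]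
      exact hGd j i hj (by omega)
    · have : i = m + 1 := by omega
      subst this
      rw [hw'B]
      exact hlast j hj
  have hAw : ∀ i, A (w' i) = 0 := by
    intro i
    cases i with
    | zero => exact h.AA _
    | succ i => exact h.AB _
  have hspan : (⊤ : Submodule k V) ≤ Submodule.span k ((Set.range fun i : Fin (m + 1) => u i) ∪
      Set.range fun i : Fin (m + 1 + 1) => w' i) := by
    intro v _
    obtain ⟨x, rfl⟩ := hsurj v
    rw [he]
    refine Submodule.add_mem _ (Submodule.sum_mem _ ?_) (Submodule.smul_mem _ _ ?_)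
    · intro i hi
      rw [Finset.mem_range] at hi
      refine Submodule.add_mem _ (Submodule.smul_mem _ _ ?_) (Submodule.smul_mem _ _ ?_)
      · exact Submodule.subset_span (Or.inl ⟨⟨i, hi⟩, rfl⟩)
      · rw [← hw'A i (by omega)]
        exact Submodule.subset_span (Or.inr ⟨⟨i, by omega⟩, rfl⟩)
    · exact Submodule.subset_span (Or.inr ⟨⟨m + 1, by omega⟩, rfl⟩)
  refine ⟨u, w', ?_, ?_, hspan⟩
  · intro i hi
    exact ⟨(hw'A i (by omega)).symm, rfl⟩
  -- dimension
  let F : Fin (m + 1) ⊕ Fin (m + 1 + 1) → V := Sum.elim (fun i => u i) (fun i => w' i)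
  have hF : LinearIndependent k F := by
    rw [Fintype.linearIndependent_iff]
    intro c hc
    rw [Fintype.sum_sum_type] at hc
    have e1 : ∀ i : Fin (m + 1), F (Sum.inl i) = u i := fun i => rfl
    have e2 : ∀ i : Fin (m + 1 + 1), F (Sum.inr i) = w' i := fun i => rfl
    simp only [e1, e2] at hc
    have hc1 : ∑ i : Fin (m + 1), c (Sum.inl i) • w' i = 0 := by
      have := congrArg A hc
      rw [map_add, map_sum, map_sum, map_zero] at this
      simp only [map_smul, hAw, smul_zero, Finset.sum_const_zero, add_zero] at this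
      rw [← this]
      apply Finset.sum_congr rfl
      intro i _
      rw [hw'A i (by omega)]
    have hl : ∀ i : Fin (m + 1), c (Sum.inl i) = 0 := by
      intro j
      have := congrArg (G j) hc1
      rw [map_sum, map_zero] at this
      simp only [map_smul, smul_eq_mul] at this
      rw [Finset.sum_eq_single j] at this
      · rw [hGw j j (by omega) (by omega), if_pos rfl, mul_one] at this
        exact this
      · intro i _ hij
        rw [hGw j i (by omega) (by omega), if_neg (fun h0 => hij (Fin.ext h0.symm)), mul_zero]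
      · intro h0
        exact absurd (Finset.mem_univ _) h0
    have hr : ∀ i : Fin (m + 1 + 1), c (Sum.inr i) = 0 := by
      simp only [hl, zero_smul, Finset.sum_const_zero, zero_add] at hc
      intro j
      have := congrArg (G j) hc
      rw [map_sum, map_zero] at this
      simp only [map_smul, smul_eq_mul] at this
      rw [Finset.sum_eq_single j] at this
      · rw [hGw j j (by omega) (by omega), if_pos rfl, mul_one] at this
        exact this
      · intro i _ hij
        rw [hGw j i (by omega) (by omega), if_neg (fun h0 => hij (Fin.ext h0.symm)), mul_zero]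
      · intro h0
        exact absurd (Finset.mem_univ _) h0
    intro i
    cases i with
    | inl i => exact hl i
    | inr i => exact hr i
  have hFs : ⊤ ≤ Submodule.span k (Set.range F) := by
    rw [Set.Sum.elim_range]
    exact hspan
  have hb := Module.finrank_eq_card_basis (Basis.mk hF hFs)
  rw [hb, Fintype.card_sum, Fintype.card_fin, Fintype.card_fin]
  omega

end general

/-- F9. The case of injective, not surjective operators. -/
theorem proj_case {V : Type} [AddCommGroup V] [Module (ZMod 2) V] [FiniteDimensional (ZMod 2) V]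
    {A B C : V →ₗ[ZMod 2] V} (h : Kron.Sys A B C) (hd : 1 < finrank (ZMod 2) V)
    (hA : LinearMap.ker A ≤ LinearMap.ker B) (hB : LinearMap.ker B ≤ LinearMap.ker A)
    (hn : ¬ LinearMap.range A ≤ LinearMap.range B) :
    ∃ (n : ℕ) (u w : ℕ → V), 1 ≤ n ∧ (∀ i < n, A (u i) = w i ∧ B (u i) = w (i + 1)) ∧
      finrank (ZMod 2) V = 2 * n + 1 ∧
      ⊤ ≤ Submodule.span (ZMod 2) ((Set.range fun i : Fin n => u i) ∪
        Set.range fun i : Fin (n + 1) => w i) := by
  have hS : ker A ⊓ ker B ≤ range A ⊔ range B := h.ker_le hd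
  have kA : ker A = range A ⊔ range B := le_antisymm
    (le_trans (le_inf le_rfl hA) hS) (h.sup_le_ker.trans inf_le_left)
  have kB : ker B = range A ⊔ range B := le_antisymm
    (le_trans (le_inf hB le_rfl) hS) (h.sup_le_ker.trans inf_le_right)
  have hWB : ¬ range A ⊔ range B ≤ range B := fun h0 => hn (le_sup_left.trans h0)
  have hex : ∃ j, ¬ range A ⊔ range B ≤ range B ⊔ sq A B ⊤ j := by
    obtain ⟨j, hj⟩ := exists_sq_top A B
    refine ⟨j, ?_⟩
    set D := sq A B ⊤ j with hD
    have hj' : (D.comap B).map A = D := hj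
    have e1 := finrank_map_add A (D.comap B)
    have e2 := finrank_map_add B (D.comap B)
    rw [hj'] at e1
    rw [Submodule.map_comap_eq] at e2
    have e3 : (D.comap B) ⊓ ker B = ker B := by
      rw [inf_eq_right]
      intro x hx
      rw [LinearMap.mem_ker] at hx
      rw [Submodule.mem_comap, hx]
      exact D.zero_mem
    have e4 : (D.comap B) ⊓ ker A = ker B := by rw [kA, ← kB, e3]
    rw [e3] at e2
    rw [e4] at e1
    have e5 : range B ⊓ D = D := by
      apply Submodule.eq_of_le_of_finrank_eq inf_le_right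
      omega
    have e6 : D ≤ range B := inf_eq_right.1 e5
    rw [sup_eq_left.2 e6]
    exact hWB
  classical
  have h0 : Nat.find hex ≠ 0 := by
    intro h0
    have := Nat.find_spec hex
    rw [h0] at this
    apply this
    show _ ≤ range B ⊔ ⊤
    rw [sup_top_eq]
    exact le_top
  have h1 : Nat.find hex ≠ 1 := by
    intro h1
    have := Nat.find_spec hex
    rw [h1] at this
    apply this
    have e : sq A B ⊤ 1 = range A := by
      show (Submodule.comap B ⊤).map A = _
      rw [Submodule.comap_top, Submodule.map_top]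
    rw [e, sup_comm]
  obtain ⟨m, hm⟩ : ∃ m, Nat.find hex = m + 2 := ⟨Nat.find hex - 2, by omega⟩
  have h2 := Nat.find_spec hex
  rw [hm] at h2
  have h3 : range A ⊔ range B ≤ range B ⊔ sq A B ⊤ (m + 1) := by
    by_contra h4
    have := Nat.find_min' hex h4
    omega
  obtain ⟨u, w, huw, hf, hs⟩ := preproj_chain h m h3 h2
  exact ⟨m + 1, u, w, by omega, huw, hf, hs⟩

end Pool.Agent.Helper42.BQ
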